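import Pool.Agent.W674.LVG.Fin

/-!
# Lipschitz-volume rigidity of convex bodies in normed spaces for Finsler masses

Full positive answer to Q1: every convex body in every finite-dimensional normed space is
Lipschitz-volume rigid among integral current spaces with respect to the Busemann mass, and with
respect to the Holmes-Thompson mass.
-/

set_option autoImplicit false

namespace Pool.Agent.Results.MP_2c180d_gt.FinslerRigid

open Pool.Agent.W674.LVG

/-- every convex body `K` in a normed space `V` of finite dimension `n + 1` is Lipschitz-volume
rigid among integral current spaces with respect to the Busemann mass and with respect to the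
Holmes-Thompson mass -/
theorem result (n : ℕ) (V : Type) [NormedAddCommGroup V] [NormedSpace ℝ V]
    (b : Module.Basis (Fin (n + 1)) ℝ V) (K : Set V) (hK : IsCompact K) (hc : Convex ℝ K)
    (hi : (interior K).Nonempty) :
    IsRigid (fun _ => busemann) b K ∧ IsRigid (fun _ => holmesThompson) b K :=
  ⟨rigid ing.bus b hK hc hi, rigid Pool.Agent.W338.LVFht.main b hK hc hi⟩

end Pool.Agent.Results.MP_2c180d_gt.FinslerRigid
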